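import Pool.Agent.Helper91.FL.Gaunt
import Pool.Agent.Helper88.FL.Htpy
import Pool.Agent.Helper85.FL.FL3
import Pool.Agent.Helper83.FL.MpFib
import Pool.Agent.Helper46.FL.PreHo
import Pool.Agent.Helper36.FL.Cyl
import Pool.Agent.Helper64.FL.FL9
import Pool.Agent.Helper61.FL14
import Pool.Agent.Helper30.FL.Level

/-!
# Project FL, section FL-17a, unconditional form

Also the two hypothesis packages `Deps` (FL-4) and `Tool` (FL-16).
-/

open CategoryTheory MonoidalCategory Simplicial Opposite

set_option autoImplicit false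

namespace Pool.Agent.Helper91.FL17a

open FL

theorem deps : Pool.Agent.Helper83.FL4.Deps where
  comp_right := by
    intro X Y Z hX hY hZ f g h1 h2
    exact Pool.Agent.Helper88.FL.hoEq_of_comp_right hX hY hZ h1 h2
  we_iff_lift := by
    intro X Y i _
    exact Helper85FL.we_iff_lift i
  we_of_lift := by
    intro X Y i _ h
    exact Helper85FL.we_of_lift i h

theorem mpKan : MpKan := fun X _ hZ => Pool.Agent.Helper83.FL4.Mp_kan_of deps X hZ

theorem preHoEq : PreHoEq := fun f hf hZ =>
  Pool.Agent.Helper46.FLb.Mp_pre_hoEq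
    (by
      intro X Y Z hX hY hZ f g h1 h2
      exact Pool.Agent.Helper88.FL.hoEq_comp hX hY hZ h1 h2)
    (fun h => Pool.Agent.Helper45.FL2.TrivFib.hoEq h)
    (fun h => Helper85FL.we_of_hoEq h)
    (fun h1 h2 => Helper85FL.we_of_comp_right h1 h2)
    (fun X _ hZ => mpKan X hZ)
    (fun i hi hZ => Pool.Agent.Helper83.FL4.Mp_pre_trivFib_of deps i hi hZ)
    (fun f => Pool.Agent.Helper36.FL.exists_cyl f)
    (fun hr Z => Pool.Agent.Helper36.FL.SDR.pre_hoEq hr Z)
    (fun hr a => Pool.Agent.Helper36.FL.SDR.app_hoEq hr a) f hf hZ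

theorem tool : Pool.Agent.Helper30.FL16.Tool where
  hoEq_of_isIso := by
    intro X Y f _
    exact Pool.Agent.Helper88.FL.hoEq_of_isIso f
  hoEq_comp := by
    intro X Y Z hX hY hZ f g h1 h2
    exact Pool.Agent.Helper88.FL.hoEq_comp hX hY hZ h1 h2
  hoEq_of_comp_left := by
    intro X Y Z hX hY hZ f g h1 h2
    exact Pool.Agent.Helper88.FL.hoEq_of_comp_left hX hY hZ h1 h2
  trivFib_lift := by
    intro E B p h K L i _
    exact Pool.Agent.Helper45.FL2.TrivFib.lift h i
  trivFib_hoEq := by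
    intro E B p h
    exact Pool.Agent.Helper45.FL2.TrivFib.hoEq h
  trivFib_of_hoEq := by
    intro E B p hE hB hp h
    exact Pool.Agent.Helper45.FL2.trivFib_of_hoEq hE hB hp h
  we_of_hoEq := by
    intro X Y f h
    exact Helper85FL.we_of_hoEq h
  we_comp := by
    intro X Y Z f g h1 h2
    exact Helper85FL.we_comp h1 h2
  we_of_comp_left := by
    intro X Y Z f g h1 h2
    exact Helper85FL.we_of_comp_left h1 h2
  we_of_comp_right := by
    intro X Y Z f g h1 h2
    exact Helper85FL.we_of_comp_right h1 h2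
  Mp_kan := by
    intro A _ X Z hZ
    exact mpKan X hZ
  Mp_pre_kanFib := by
    intro A _ X Y Z i hi hZ
    exact Pool.Agent.Helper83.FL4.Mp_pre_kanFib_of deps i hi hZ
  rel_lift := by
    intro A _ X Y Z Z' i hi q hq hZ hZ' h h' K L j _ u v w h1 h2 h3
    exact Pool.Agent.Helper83.FL4.rel_lift_of deps i hi q hq hZ hZ' h h' j u v w h1 h2 h3
  exists_cyl := by
    intro A _ X Y f
    exact Pool.Agent.Helper36.FL.exists_cyl f
  sdr_pre_hoEq := by
    intro A _ X Y r hr Z
    exact Pool.Agent.Helper36.FL.SDR.pre_hoEq hr Z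
  sdr_whisker := by
    intro A B _ _ X Y r hr F
    exact Pool.Agent.Helper36.FL.SDR.whisker hr F

theorem levelLemma : LevelLemma := fun hD _ _ f h =>
  Pool.Agent.Helper30.FL16.level_lemma_of tool hD f h

variable {n : ℕ}

theorem canCone_isGaunt (hrep : ∀ θ : Th n, IsCat n (rep θ)) (C : SP (Th n)) (hC : IsCat n C) :
    IsGaunt (canDiag C) (canCone C) :=
  canCone_isGaunt' preHoEq (fun C a => Pool.Agent.Helper64.FLCan.canCone_we C a) hrep C hC

theorem YD_kan {D : SP (Gn n)} (hD : InjFib D) : (YD D).Kan := YD_kan' mpKan hD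

theorem YD_gauntDescent {D : SP (Gn n)} (hD : InjFib D) (hc : ∀ i, IsCat n (level D i)) :
    (YD D).GauntDescent :=
  YD_gauntDescent' (fun e e' h1 h2 => Pool.Agent.Helper88.FL.hoEq_of_arrow_iso e e' h1 h2)
    (fun p Z => Helper61FL.exists_holimIso p Z) levelLemma hD hc

end Pool.Agent.Helper91.FL17a
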