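import Pool.Agent.Helper58.FL.Tools

/-!
# Project FL, section FL-17a: canonical diagrams are gaunt, `Y(D)` satisfies gaunt descent
-/

open CategoryTheory MonoidalCategory Simplicial Opposite

set_option autoImplicit false

namespace Pool.Agent.Helper91.FL17a

open FL

/-- statement of `hoEq_of_arrow_iso` -/
def ArrowIso : Prop := ∀ {X Y X' Y' : SSet.{0}} {f : X ⟶ Y} {f' : X' ⟶ Y'} (e : X ≅ X')
    (e' : Y ≅ Y') (_ : f ≫ e'.hom = e.hom ≫ f') (_ : HoEq f), HoEq f'

/-- statement of `Mp_kan` -/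
def MpKan : Prop := ∀ {A : Type} [SmallCategory A] (X : SP A) {Z : SP A} (_ : InjFib Z),
  SSet.KanComplex (Mp X Z)

/-- statement of `Mp_pre_hoEq` -/
def PreHoEq : Prop := ∀ {A : Type} [SmallCategory A] {X Y Z : SP A} (f : X ⟶ Y)
  (_ : ∀ a, WE (f.app a)) (_ : InjFib Z), HoEq (Mp.pre f Z)

/-- statement of `canCone_we` -/
def CanWe : Prop := ∀ {A : Type} [SmallCategory A] (C : SP A) (a : Aᵒᵖ), WE ((canCone C).app a)

/-- statement of `exists_holimIso` -/
def HolimIso : Prop := ∀ {A J : Type} [SmallCategory A] [SmallCategory J] (p : J ⥤ SP A) (Z : SP A),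
    ∃ e : Mp (Hoco p) Z ≅ Holim (mpDiag p Z),
      ∀ (k : SimplexCategoryᵒᵖ) (ψ : MpS (Hoco p) Z k.unop) (j : Jᵒᵖ) (l : SimplexCategoryᵒᵖ)
        (s : l.unop ⟶ k.unop) (w : WS j.unop l.unop) (a : Aᵒᵖ) (m : SimplexCategoryᵒᵖ)
        (t : m.unop ⟶ l.unop) (y : ((p.obj j.unop).obj a).obj m),
        ((e.hom.app k ψ : MpS (W J) (mpDiag p Z) k.unop).app j l s w :
          MpS (p.obj j.unop) Z l.unop).app a m t y =
        ψ.app a m (t ≫ s) ⟨w.σ.res t, ((p.map (w.u ≫ w.σ.zeroTo t)).app a).app m y⟩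

/-- statement of `level_lemma` -/
def LevelLemma : Prop := ∀ {n : ℕ} {D : SP (Gn n)} (_ : InjFib D) {X X' : SP (Gn n)} (f : X ⟶ X')
    (_ : ∀ i k : Fin (n + 1), i ≤ k → HoEq (Mp.pre (levelHom f i) (level D k))),
    HoEq (Mp.pre f D)

variable {n : ℕ}

theorem canCone_isGaunt' (h1 : PreHoEq) (h2 : CanWe) (hrep : ∀ θ : Th n, IsCat n (rep θ))
    (C : SP (Th n)) (hC : IsCat n C) : IsGaunt (canDiag C) (canCone C) where
  cat_obj _ := hrep _
  cat_pt := hC
  colim i _ _ hZ := h1 (Functor.whiskerLeft (tr n i).op (canCone C)) (fun _ => h2 C _) hZ.inj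

theorem YD_kan' (h : MpKan) {D : SP (Gn n)} (hD : InjFib D) : (YD D).Kan := fun _ => h _ hD

/-- isomorphisms of mapping spaces induced by isomorphisms of the source -/
def preIso {A : Type} [SmallCategory A] {X X' : SP A} (e : X ≅ X') (Z : SP A) :
    Mp X' Z ≅ Mp X Z where
  hom := Mp.pre e.hom Z
  inv := Mp.pre e.inv Z
  hom_inv_id := by
    ext k φ
    refine MpS.ext ?_
    funext a l s x
    show φ.app a l s ((e.hom.app a).app l ((e.inv.app a).app l x)) = φ.app a l s x
    have h1 : e.inv.app a ≫ e.hom.app a = 𝟙 _ := by rw [← NatTrans.comp_app, e.inv_hom_id]; rfl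
    have h2 := ConcreteCategory.congr_hom (NatTrans.congr_app h1 l) x
    exact congrArg (φ.app a l s) h2
  inv_hom_id := by
    ext k φ
    refine MpS.ext ?_
    funext a l s x
    show φ.app a l s ((e.inv.app a).app l ((e.hom.app a).app l x)) = φ.app a l s x
    have h1 : e.hom.app a ≫ e.inv.app a = 𝟙 _ := by rw [← NatTrans.comp_app, e.hom_inv_id]; rfl
    have h2 := ConcreteCategory.congr_hom (NatTrans.congr_app h1 l) x
    exact congrArg (φ.app a l s) h2

/-- the levels of `filt X` -/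
noncomputable def levelFilt (X : SP (Th n)) (i : Fin (n + 1)) :
    level (filt X) i ≅ (tr n i).op ⋙ X :=
  NatIso.ofComponents (fun _ => Iso.refl _) (by
    intro a b f
    have e : (tower n).map ((Prod.sectL (Th n) (op i)).map f.unop) = (tr n i).map f.unop :=
      (congrArg (fun t => (tr n i).map f.unop ≫ NatTrans.app t (unop a))
        (trMap_refl n i (le_refl _))).trans (Category.comp_id _)
    refine (Category.comp_id _).trans (Eq.trans ?_ (Category.id_comp _).symm)
    exact congrArg (fun t => X.map (Quiver.Hom.op t)) e)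

/-- the whiskered diagram -/
noncomputable abbrev filtD {J : Type} [SmallCategory J] (p : J ⥤ SP (Th n)) : J ⥤ SP (Gn n) :=
  p ⋙ (Functor.whiskeringLeft _ _ _).obj (tower n).op

/-- `filt (hocolim p) = hocolim (filt p)` -/
noncomputable def filtHoco {J : Type} [SmallCategory J] (p : J ⥤ SP (Th n)) :
    Hoco (filtD p) ≅ filt (Hoco p) where
  hom :=
    { app := fun a =>
        { app := fun k => ↾ fun (w : HS (filtD p) a k) =>
            (⟨w.σ, w.x⟩ : HS p (op ((tower n).obj a.unop)) k)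
          naturality := fun _ _ _ => rfl }
      naturality := fun _ _ _ => rfl }
  inv :=
    { app := fun a =>
        { app := fun k => ↾ fun (w : HS p (op ((tower n).obj a.unop)) k) =>
            (⟨w.σ, w.x⟩ : HS (filtD p) a k)
          naturality := fun _ _ _ => rfl }
      naturality := fun _ _ _ => rfl }
  hom_inv_id := rfl
  inv_hom_id := rfl

theorem along_eq {J : Type} [SmallCategory J] (p : J ⥤ SP (Th n))
    (hp : ∀ j, IsCat n (p.obj j)) (D : SP (Gn n)) :
    (YD D).along p hp = mpDiag (filtD p) D := rfl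

theorem YD_gauntDescent' (h1 : ArrowIso) (h2 : HolimIso) (h3 : LevelLemma) {D : SP (Gn n)}
    (hD : InjFib D) (hc : ∀ i, IsCat n (level D i)) : (YD D).GauntDescent := by
  intro J _ p C Λ h
  have e1 : HoEq (Mp.pre (Functor.whiskerLeft (tower n).op Λ : filt (Hoco p) ⟶ filt C) D) := by
    refine h3 hD _ fun i k _ => ?_
    have e2 := h.colim i.1 (Nat.lt_succ_iff.1 i.2) _ (hc k)
    refine h1 (preIso (levelFilt C i) (level D k)) (preIso (levelFilt (Hoco p) i) (level D k)) ?_ e2
    rfl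
  obtain ⟨e, he⟩ := h2 (filtD p) D
  refine h1 (Iso.refl _) (preIso (filtHoco p) D ≪≫ e) ?_ e1
  ext k ψ
  refine MpS.ext ?_
  funext j l s w
  refine MpS.ext ?_
  funext a m t y
  exact he k _ j l s w a m t y

end Pool.Agent.Helper91.FL17a
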